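import Mathlib

/-!
The ambient map `F(u)_i = u_i √(1 + ε (u_{i+1}² − u_{i+2}²))`, `ε = 1/200`, of `ℝ³`.
-/

set_option autoImplicit false

namespace Pool.Agent.Helper485_RE

open scoped Topology

/-- Euclidean three-space -/
abbrev E3 : Type := EuclideanSpace ℝ (Fin 3)

/-- `ψ_i(u) = u_{i+1}² − u_{i+2}²` (indices modulo three) -/
def psi (i : Fin 3) (u : E3) : ℝ := u (i + 1) ^ 2 - u (i + 2) ^ 2

/-- the factor `√(1 + ε ψ_i(u))` -/
noncomputable def fac (i : Fin 3) (u : E3) : ℝ := Real.sqrt (1 + (1 / 200) * psi i u)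

/-- the ambient map -/
noncomputable def F (u : E3) : E3 := WithLp.toLp 2 (fun i => u i * fac i u)

@[simp] lemma F_apply (u : E3) (i : Fin 3) : F u i = u i * fac i u := rfl

lemma sq_le_normSq (u : E3) (i : Fin 3) : u i ^ 2 ≤ ‖u‖ ^ 2 := by
  rw [EuclideanSpace.real_norm_sq_eq]
  exact Finset.single_le_sum (f := fun i => u i ^ 2) (fun i _ => sq_nonneg _) (Finset.mem_univ i)

lemma abs_le_norm (u : E3) (i : Fin 3) : |u i| ≤ ‖u‖ := by
  have := sq_le_normSq u i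
  exact abs_le_of_sq_le_sq this (norm_nonneg _)

lemma abs_psi_le {u : E3} (hu : ‖u‖ < 2) (i : Fin 3) : |psi i u| ≤ 4 := by
  have h1 := sq_le_normSq u (i + 1)
  have h2 := sq_le_normSq u (i + 2)
  have h3 : ‖u‖ ^ 2 ≤ 4 := by nlinarith [norm_nonneg u]
  unfold psi
  rw [abs_le]
  constructor <;> nlinarith [sq_nonneg (u (i + 1)), sq_nonneg (u (i + 2))]

lemma rad_pos {u : E3} (hu : ‖u‖ < 2) (i : Fin 3) : (1 / 2 : ℝ) < 1 + (1 / 200) * psi i u := by
  have := abs_le.1 (abs_psi_le hu i)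
  linarith [this.1]

lemma fac_sq {u : E3} (hu : ‖u‖ < 2) (i : Fin 3) : fac i u ^ 2 = 1 + (1 / 200) * psi i u :=
  Real.sq_sqrt (by linarith [rad_pos hu i])

lemma fac_pos {u : E3} (hu : ‖u‖ < 2) (i : Fin 3) : 0 < fac i u :=
  Real.sqrt_pos.2 (by linarith [rad_pos hu i])

lemma half_le_fac {u : E3} (hu : ‖u‖ < 2) (i : Fin 3) : 1 / 2 ≤ fac i u := by
  have h1 := fac_sq hu i
  have h2 := fac_pos hu i
  have h3 := rad_pos hu i
  nlinarith

lemma normSq_F {u : E3} (hu : ‖u‖ < 2) : ‖F u‖ ^ 2 = ‖u‖ ^ 2 := by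
  rw [EuclideanSpace.real_norm_sq_eq, EuclideanSpace.real_norm_sq_eq]
  simp only [F_apply, mul_pow, fac_sq hu, psi, Fin.sum_univ_three, Fin.isValue]
  have e1 : ((0 : Fin 3) + 1) = 1 := rfl
  have e2 : ((0 : Fin 3) + 2) = 2 := rfl
  have e3 : ((1 : Fin 3) + 1) = 2 := rfl
  have e4 : ((1 : Fin 3) + 2) = 0 := rfl
  have e5 : ((2 : Fin 3) + 1) = 0 := rfl
  have e6 : ((2 : Fin 3) + 2) = 1 := rfl
  rw [e1, e2, e3, e4, e5, e6]
  ring

lemma norm_F {u : E3} (hu : ‖u‖ < 2) : ‖F u‖ = ‖u‖ := by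
  have := normSq_F hu
  exact (sq_eq_sq₀ (norm_nonneg _) (norm_nonneg _)).1 this

lemma abs_fac_sub_one {u : E3} (hu : ‖u‖ < 2) (i : Fin 3) : |fac i u - 1| ≤ 1 / 50 := by
  have h1 := fac_sq hu i
  have h2 := half_le_fac hu i
  have h3 := abs_le.1 (abs_psi_le hu i)
  rw [abs_le]
  constructor <;> nlinarith

lemma abs_psi_sub {u v : E3} (hu : ‖u‖ < 2) (hv : ‖v‖ < 2) (i : Fin 3) :
    |psi i u - psi i v| ≤ 8 * ‖u - v‖ := by
  have hd (j : Fin 3) : |u j - v j| ≤ ‖u - v‖ := abs_le_norm (u - v) j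
  have hs (j : Fin 3) : |u j + v j| ≤ 4 := by
    have h1 := abs_le_norm u j
    have h2 := abs_le_norm v j
    calc |u j + v j| ≤ |u j| + |v j| := abs_add_le _ _
      _ ≤ 4 := by linarith
  have key (j : Fin 3) : |u j ^ 2 - v j ^ 2| ≤ 4 * ‖u - v‖ := by
    have : u j ^ 2 - v j ^ 2 = (u j + v j) * (u j - v j) := by ring
    rw [this, abs_mul]
    exact mul_le_mul (hs j) (hd j) (abs_nonneg _) (by norm_num)
  have : psi i u - psi i v = (u (i + 1) ^ 2 - v (i + 1) ^ 2) - (u (i + 2) ^ 2 - v (i + 2) ^ 2) := by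
    unfold psi; ring
  rw [this]
  calc _ ≤ |u (i + 1) ^ 2 - v (i + 1) ^ 2| + |u (i + 2) ^ 2 - v (i + 2) ^ 2| := abs_sub _ _
    _ ≤ 8 * ‖u - v‖ := by linarith [key (i + 1), key (i + 2)]

lemma abs_fac_sub {u v : E3} (hu : ‖u‖ < 2) (hv : ‖v‖ < 2) (i : Fin 3) :
    |fac i u - fac i v| ≤ (1 / 25) * ‖u - v‖ := by
  have h1 := fac_sq hu i
  have h2 := fac_sq hv i
  have h3 := half_le_fac hu i
  have h4 := half_le_fac hv i
  have h5 := abs_psi_sub hu hv i
  have h6 : (fac i u - fac i v) * (fac i u + fac i v) = (1 / 200) * (psi i u - psi i v) := by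
    nlinarith
  have h7 : |fac i u - fac i v| * (fac i u + fac i v) = (1 / 200) * |psi i u - psi i v| := by
    have := congrArg abs h6
    rw [abs_mul, abs_mul, abs_of_pos (by linarith : (0 : ℝ) < fac i u + fac i v),
      abs_of_pos (by norm_num : (0 : ℝ) < 1 / 200)] at this
    exact this
  have h8 : |fac i u - fac i v| ≤ |fac i u - fac i v| * (fac i u + fac i v) := by
    have := abs_nonneg (fac i u - fac i v)
    nlinarith
  linarith

lemma approx : ApproximatesLinearOn F (ContinuousLinearMap.id ℝ E3) (Metric.ball 0 2) (1 / 4) := by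
  intro u hu v hv
  have hu : ‖u‖ < 2 := by simpa using hu
  have hv : ‖v‖ < 2 := by simpa using hv
  have comp (i : Fin 3) : ((F u - F v - (u - v)) i) ^ 2 ≤ (1 / 100) * ‖u - v‖ ^ 2 := by
    have e : (F u - F v - (u - v)) i
        = (u i - v i) * (fac i u - 1) + v i * (fac i u - fac i v) := by
      simp only [PiLp.sub_apply, F_apply]; ring
    have hd : |u i - v i| ≤ ‖u - v‖ := abs_le_norm (u - v) i
    have hvi : |v i| ≤ 2 := (abs_le_norm v i).trans hv.le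
    have h1 := abs_fac_sub_one hu i
    have h2 := abs_fac_sub hu hv i
    have : |(F u - F v - (u - v)) i| ≤ (1 / 10) * ‖u - v‖ := by
      rw [e]
      calc _ ≤ |(u i - v i) * (fac i u - 1)| + |v i * (fac i u - fac i v)| := abs_add_le _ _
        _ = |u i - v i| * |fac i u - 1| + |v i| * |fac i u - fac i v| := by rw [abs_mul, abs_mul]
        _ ≤ ‖u - v‖ * (1 / 50) + 2 * ((1 / 25) * ‖u - v‖) := by
            gcongr
        _ = (1 / 10) * ‖u - v‖ := by ring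
    rw [← sq_abs]
    have h0 := abs_nonneg ((F u - F v - (u - v)) i)
    nlinarith [norm_nonneg (u - v)]
  have : ‖F u - F v - (u - v)‖ ^ 2 ≤ ((1 / 4) * ‖u - v‖) ^ 2 := by
    rw [EuclideanSpace.real_norm_sq_eq, Fin.sum_univ_three]
    nlinarith [comp 0, comp 1, comp 2, sq_nonneg ‖u - v‖]
  have h := abs_le_of_sq_le_sq this (by positivity)
  rw [abs_of_nonneg (norm_nonneg _)] at h
  simpa using h

end Pool.Agent.Helper485_RE
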