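import Mathlib

/-!
Definitions for MP_794bd6_an: the Kolmogorov–Sinai entropy of an invariant measure and the
function `χ₊` (the sum of the positive characteristic exponents).
-/

set_option autoImplicit false

namespace Pool.Agent.Helper485_RE

open Filter MeasureTheory
open scoped Manifold

/-- The entropy `-∑ ρ(P) log ρ(P)` of the partition of `X` into the fibres `P = ξ⁻¹(i)` of a map
`ξ` to a finite set. -/
noncomputable def partEntropy {X : Type*} [MeasurableSpace X] (ρ : Measure X)
    {ι : Type*} [Fintype ι] (ξ : X → ι) : ℝ :=
  ∑ i, Real.negMulLog (ρ.real (ξ ⁻¹' {i}))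

/-- The Kolmogorov–Sinai entropy `h(ρ)` of the map `f`: the supremum, over the finite measurable
partitions `ξ`, of `lim (1/n) H(ξ ∨ f⁻¹ξ ∨ ⋯ ∨ f^{-(n-1)}ξ)` (the limit exists when `ρ` is
invariant; it is written as a `limsup`).  The joined partition is the partition into the fibres of
`x ↦ (ξ x, ξ (f x), …, ξ (f^{n-1} x))`. -/
noncomputable def ksEntropy {X : Type*} [MeasurableSpace X] (f : X → X) (ρ : Measure X) :
    ENNReal :=
  ⨆ (k : ℕ) (ξ : X → Fin k) (_ : Measurable ξ),
    limsup (fun n : ℕ =>
      ENNReal.ofReal (partEntropy ρ (fun x => fun i : Fin n => ξ (f^[i] x))) / (n : ENNReal)) atTop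

/-- The norm `‖Λ A‖` of the map induced by a linear map `A : V → W` on the exterior algebras, for
the inner products `bV` on `V` and `bW` on `W`: the supremum of the `k`-dimensional volumes
`√det (bW (A vᵢ) (A vⱼ))` spanned by the images of `k` vectors of norm at most one, over all
`k ≥ 0` (for `k = 0` the value is `1`, for `k = 1` one gets `‖A‖`, for `k = dim V` one gets
`|det A|`). -/
noncomputable def extNorm {V W : Type*} (bV : V → V → ℝ) (bW : W → W → ℝ) (A : V → W) :
    ENNReal :=
  ⨆ (k : ℕ) (v : Fin k → V) (_ : ∀ i, bV (v i) (v i) ≤ 1),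
    ENNReal.ofReal (Real.sqrt (Matrix.det (Matrix.of fun i j => bW (A (v i)) (A (v j)))))

/-- `χ₊(x) = lim (1/n) log ‖Λ T_x fⁿ‖`, with respect to a family `g` of inner products on the
tangent spaces of the manifold `M`.  By Oseledets' theorem the limit exists and is the sum of the
positive characteristic exponents, with multiplicity, at almost every point for every invariant
measure; it is written as a `liminf`. -/
noncomputable def chiPlus {E : Type*} [NormedAddCommGroup E] [NormedSpace ℝ E]
    {H : Type*} [TopologicalSpace H] (I : ModelWithCorners ℝ E H)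
    {M : Type*} [TopologicalSpace M] [ChartedSpace H M]
    (g : Bundle.RiemannianMetric (fun x : M => TangentSpace I x)) (f : M → M) (x : M) : ENNReal :=
  liminf (fun n : ℕ =>
    (ENNReal.log (extNorm (fun v w => g.inner x v w) (fun v w => g.inner (f^[n] x) v w)
      (mfderiv I I f^[n] x))).toENNReal / (n : ENNReal)) atTop

end Pool.Agent.Helper485_RE
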