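import Mathlib
import Pool.Agent.Helper485_RE.Ambient

/-!
The ambient map is an analytic diffeomorphism from the ball of radius two onto an open set
containing the unit sphere.
-/

set_option autoImplicit false

namespace Pool.Agent.Helper485_RE

open scoped Topology ContDiff

lemma approx' : ApproximatesLinearOn F ((ContinuousLinearEquiv.refl ℝ E3 : E3 ≃L[ℝ] E3) : E3 →L[ℝ] E3)
    (Metric.ball 0 2) (1 / 4) := approx

lemma nnnorm_refl : ‖((ContinuousLinearEquiv.refl ℝ E3).symm : E3 →L[ℝ] E3)‖₊ = 1 := by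
  have h : ‖ContinuousLinearMap.id ℝ E3‖ = 1 := ContinuousLinearMap.norm_id
  exact NNReal.eq h

lemma hc : Subsingleton E3 ∨
    (1 / 4 : NNReal) < ‖((ContinuousLinearEquiv.refl ℝ E3).symm : E3 →L[ℝ] E3)‖₊⁻¹ := by
  right
  rw [nnnorm_refl, inv_one, ← NNReal.coe_lt_coe]
  norm_num

/-- the ambient map as an open partial homeomorphism with source the ball of radius two -/
noncomputable def Fhom : OpenPartialHomeomorph E3 E3 :=
  approx'.toOpenPartialHomeomorph F (Metric.ball 0 2) hc Metric.isOpen_ball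

@[simp] lemma Fhom_coe : (Fhom : E3 → E3) = F := rfl

@[simp] lemma Fhom_source : Fhom.source = Metric.ball 0 2 := rfl

lemma psi_contDiff (i : Fin 3) {n : WithTop ℕ∞} : ContDiff ℝ n (psi i) := by
  unfold psi
  fun_prop

lemma fac_contDiffAt (i : Fin 3) {n : WithTop ℕ∞} {u : E3} (hu : ‖u‖ < 2) :
    ContDiffAt ℝ n (fac i) u := by
  unfold fac
  apply ContDiffAt.sqrt
  · exact contDiffAt_const.add (contDiffAt_const.mul (psi_contDiff i).contDiffAt)
  · linarith [rad_pos hu i]

lemma F_contDiffAt {n : WithTop ℕ∞} {u : E3} (hu : ‖u‖ < 2) : ContDiffAt ℝ n F u := by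
  rw [contDiffAt_euclidean]
  intro i
  simp only [F_apply]
  apply ContDiffAt.mul
  · fun_prop
  · exact fac_contDiffAt i hu

lemma F_zero : F 0 = 0 := by
  ext i; simp

lemma mem_target {y : E3} (hy : ‖y‖ = 1) : y ∈ Fhom.target := by
  have h1 : Metric.closedBall (0 : E3) (3 / 2) ⊆ Metric.ball 0 2 :=
    Metric.closedBall_subset_ball (by norm_num)
  apply approx'.closedBall_subset_target hc Metric.isOpen_ball (by norm_num) h1
  rw [nnnorm_refl, F_zero]
  simp only [Metric.mem_closedBall, dist_zero_right, hy, inv_one]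
  norm_num

lemma mem_source_of {y : E3} (hy : ‖y‖ = 1) : ‖Fhom.symm y‖ < 2 := by
  have := Fhom.map_target (mem_target hy)
  simpa using this

lemma F_symm {y : E3} (hy : ‖y‖ = 1) : F (Fhom.symm y) = y := Fhom.right_inv (mem_target hy)

lemma norm_symm {y : E3} (hy : ‖y‖ = 1) : ‖Fhom.symm y‖ = 1 := by
  have h := norm_F (mem_source_of hy)
  rw [F_symm hy, hy] at h
  exact h.symm

lemma symm_F {u : E3} (hu : ‖u‖ < 2) : Fhom.symm (F u) = u :=
  Fhom.left_inv (by simpa using hu)

/-- the derivative of the ambient map at a point of the ball is invertible -/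
lemma exists_equiv {u : E3} (hu : ‖u‖ < 2) :
    ∃ A : E3 ≃L[ℝ] E3, HasFDerivAt F (A : E3 →L[ℝ] E3) u := by
  have hd : HasFDerivAt F (fderiv ℝ F u) u :=
    ((F_contDiffAt (n := 1) hu).differentiableAt (by norm_num)).hasFDerivAt
  have hball : Metric.ball (0 : E3) 2 ∈ 𝓝 u := Metric.isOpen_ball.mem_nhds (by simpa using hu)
  have hlip : ‖fderiv ℝ F u - ContinuousLinearMap.id ℝ E3‖ ≤ 1 / 4 := by
    have h1 : HasFDerivAt (fun x => F x - x) (fderiv ℝ F u - ContinuousLinearMap.id ℝ E3) u :=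
      hd.sub (hasFDerivAt_id u)
    apply h1.le_of_lip' (by norm_num)
    filter_upwards [hball] with x hx
    have := approx x hx u (by simpa using hu)
    have e : F x - x - (F u - u) = F x - F u - (x - u) := by abel
    rw [e]
    simpa using this
  have hinj : Function.Injective (fderiv ℝ F u) := by
    rw [injective_iff_map_eq_zero]
    intro w hw
    have h2 := (fderiv ℝ F u - ContinuousLinearMap.id ℝ E3).le_opNorm w
    simp only [FunLike.coe_sub, Pi.sub_apply, hw, ContinuousLinearMap.coe_id', id_eq,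
      zero_sub, norm_neg] at h2
    have h3 : ‖w‖ ≤ (1 / 4) * ‖w‖ := h2.trans (by gcongr)
    have h4 : ‖w‖ = 0 := le_antisymm (by linarith [norm_nonneg w]) (norm_nonneg w)
    exact norm_eq_zero.1 h4
  let e : E3 ≃ₗ[ℝ] E3 := LinearEquiv.ofInjectiveEndo (fderiv ℝ F u : E3 →ₗ[ℝ] E3) hinj
  refine ⟨e.toContinuousLinearEquiv, ?_⟩
  convert hd using 1
  ext x
  rfl

lemma symm_contDiffAt {n : WithTop ℕ∞} {y : E3} (hy : ‖y‖ = 1) : ContDiffAt ℝ n Fhom.symm y := by
  obtain ⟨A, hA⟩ := exists_equiv (mem_source_of hy)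
  exact Fhom.contDiffAt_symm (mem_target hy) hA (F_contDiffAt (mem_source_of hy))

end Pool.Agent.Helper485_RE
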