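import Mathlib
import Pool.Agent.Helper485_RE.Local

/-!
The restriction of the ambient map to the unit sphere is an analytic diffeomorphism.
-/

set_option autoImplicit false

namespace Pool.Agent.Helper485_RE

open scoped Topology ContDiff Manifold

/-- the unit sphere of `ℝ³` -/
abbrev S2 : Type := Metric.sphere (0 : EuclideanSpace ℝ (Fin 3)) 1

instance factFinrank : Fact (Module.finrank ℝ (EuclideanSpace ℝ (Fin 3)) = 2 + 1) :=
  ⟨finrank_euclideanSpace_fin⟩

lemma norm_coe (x : S2) : ‖(x : E3)‖ = 1 := by simp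

lemma norm_coe_lt (x : S2) : ‖(x : E3)‖ < 2 := by rw [norm_coe]; norm_num

lemma contMDiff_F_coe {n : WithTop ℕ∞} :
    ContMDiff (𝓡 2) 𝓘(ℝ, E3) n (fun x : S2 => F (x : E3)) := by
  intro x
  have h1 : ContMDiffAt 𝓘(ℝ, E3) 𝓘(ℝ, E3) n F (x : E3) :=
    (F_contDiffAt (norm_coe_lt x)).contMDiffAt
  exact h1.comp x (contMDiff_coe_sphere x)

lemma contMDiff_symm_coe {n : WithTop ℕ∞} :
    ContMDiff (𝓡 2) 𝓘(ℝ, E3) n (fun x : S2 => Fhom.symm (x : E3)) := by
  intro x
  have h1 : ContMDiffAt 𝓘(ℝ, E3) 𝓘(ℝ, E3) n Fhom.symm (x : E3) :=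
    (symm_contDiffAt (norm_coe x)).contMDiffAt
  exact h1.comp x (contMDiff_coe_sphere x)

/-- the diffeomorphism of the sphere -/
noncomputable def fS : Diffeomorph (𝓡 2) (𝓡 2) S2 S2 ω where
  toFun x := ⟨F x, by simp [norm_F (norm_coe_lt x)]⟩
  invFun x := ⟨Fhom.symm x, by simpa using norm_symm (norm_coe x)⟩
  left_inv x := by
    apply Subtype.ext
    exact symm_F (norm_coe_lt x)
  right_inv x := by
    apply Subtype.ext
    exact F_symm (norm_coe x)
  contMDiff_toFun := contMDiff_F_coe.codRestrict_sphere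
    (fun x => by simp [norm_F (norm_coe_lt x)])
  contMDiff_invFun := contMDiff_symm_coe.codRestrict_sphere
    (fun x => by simpa using norm_symm (norm_coe x))

@[simp] lemma coe_fS (x : S2) : ((fS x : S2) : E3) = F x := rfl

end Pool.Agent.Helper485_RE
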