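import Mathlib
import Pool.Agent.Helper485_RE.Defs

/-!
A measure carried by fixed points has entropy zero.
-/

set_option autoImplicit false

namespace Pool.Agent.Helper485_RE

open Filter MeasureTheory
open scoped Topology

lemma partEntropy_code {X : Type*} [MeasurableSpace X] {ρ : Measure X} {f : X → X}
    (hf : ∀ᵐ x ∂ρ, f x = x) {k : ℕ} (ξ : X → Fin k) {n : ℕ} (hn : 0 < n) :
    partEntropy ρ (fun x => fun i : Fin n => ξ (f^[i] x)) = partEntropy ρ ξ := by
  classical
  unfold partEntropy
  let c : Fin k → (Fin n → Fin k) := fun j _ => j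
  have hc : Function.Injective c := fun a b h => congrFun h ⟨0, hn⟩
  have h1 (w : Fin n → Fin k) : ρ.real ((fun x => fun i : Fin n => ξ (f^[i] x)) ⁻¹' {w})
      = ρ.real ((c ∘ ξ) ⁻¹' {w}) := by
    apply measureReal_congr
    filter_upwards [hf] with x hx
    have : (fun i : Fin n => ξ (f^[i] x)) = c (ξ x) := by
      funext i
      rw [Function.iterate_fixed hx]
    apply propext
    show ((fun i : Fin n => ξ (f^[i] x)) = w) ↔ (c (ξ x) = w)
    rw [this]
  simp only [h1]
  have h2 : ∑ w : Fin n → Fin k, Real.negMulLog (ρ.real ((c ∘ ξ) ⁻¹' {w}))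
      = ∑ w ∈ Finset.univ.image c, Real.negMulLog (ρ.real ((c ∘ ξ) ⁻¹' {w})) := by
    symm
    apply Finset.sum_subset (Finset.subset_univ _)
    intro w _ hw
    have : (c ∘ ξ) ⁻¹' {w} = ∅ := by
      ext x
      simp only [Set.mem_preimage, Function.comp_apply, Set.mem_singleton_iff,
        Set.mem_empty_iff_false, iff_false]
      intro hx
      exact hw (Finset.mem_image.2 ⟨ξ x, Finset.mem_univ _, hx⟩)
    rw [this]
    simp
  rw [h2, Finset.sum_image (fun a _ b _ h => hc h)]
  apply Finset.sum_congr rfl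
  intro j _
  congr 2
  ext x
  simp only [Set.mem_preimage, Function.comp_apply, Set.mem_singleton_iff]
  exact ⟨fun h => hc h, fun h => by rw [h]⟩

theorem ksEntropy_eq_zero {X : Type*} [MeasurableSpace X] {ρ : Measure X} {f : X → X}
    (hf : ∀ᵐ x ∂ρ, f x = x) : ksEntropy f ρ = 0 := by
  unfold ksEntropy
  simp only [ENNReal.iSup_eq_zero]
  intro k ξ _
  have h : Tendsto (fun n : ℕ =>
      ENNReal.ofReal (partEntropy ρ (fun x => fun i : Fin n => ξ (f^[i] x))) / (n : ENNReal))
      atTop (𝓝 0) := by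
    have h1 : Tendsto (fun n : ℕ => ENNReal.ofReal (partEntropy ρ ξ) / (n : ENNReal))
        atTop (𝓝 0) := by
      have h2 := ENNReal.Tendsto.const_mul (a := ENNReal.ofReal (partEntropy ρ ξ))
        ENNReal.tendsto_inv_nat_nhds_zero (Or.inr ENNReal.ofReal_ne_top)
      rw [mul_zero] at h2
      exact h2.congr (fun n => by rw [div_eq_mul_inv])
    refine h1.congr' ?_
    filter_upwards [eventually_gt_atTop 0] with n hn
    rw [partEntropy_code hf ξ hn]
  exact h.limsup_eq

end Pool.Agent.Helper485_RE
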