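import Mathlib
import Pool.Agent.Helper485_RE.Diffeo

/-!
Every invariant probability measure is carried by the vertices and the centres.
-/

set_option autoImplicit false

namespace Pool.Agent.Helper485_RE

open scoped Topology
open MeasureTheory

/-- the vertices `±e_j` -/
def IsVertex (x : S2) : Prop := ∃ j : Fin 3, (x : E3) (j + 1) = 0 ∧ (x : E3) (j + 2) = 0

/-- the centres: all three squares are equal -/
def IsCentre (x : S2) : Prop := ∀ i : Fin 3, psi i x = 0

lemma ae_eq_of_le {ρ : Measure S2} [IsProbabilityMeasure ρ] {f : S2 → S2}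
    (hf : MeasurePreserving f ρ ρ) (φ : S2 → ℝ) (hφ : Measurable φ) (C : ℝ) (hC : ∀ x, |φ x| ≤ C)
    (hle : ∀ x, φ x ≤ φ (f x)) : ∀ᵐ x ∂ρ, φ (f x) = φ x := by
  have hi : Integrable φ ρ := by
    refine Integrable.of_bound hφ.aestronglyMeasurable C ?_
    exact Filter.Eventually.of_forall hC
  have hi2 : Integrable (fun x => φ (f x)) ρ := by
    refine Integrable.of_bound (hφ.comp hf.measurable).aestronglyMeasurable C ?_
    exact Filter.Eventually.of_forall (fun x => hC _)
  have h1 : ∫ x, φ (f x) ∂ρ = ∫ x, φ x ∂ρ := by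
    have := hf.map_eq
    conv_rhs => rw [← this]
    rw [integral_map hf.measurable.aemeasurable hφ.aestronglyMeasurable]
  have h2 : ∫ x, (φ (f x) - φ x) ∂ρ = 0 := by
    rw [integral_sub hi2 hi, h1, sub_self]
  have h3 := (integral_eq_zero_iff_of_nonneg (fun x => sub_nonneg.2 (hle x)) (hi2.sub hi)).1 h2
  filter_upwards [h3] with x hx
  exact sub_eq_zero.1 hx

lemma coord_measurable (i : Fin 3) : Measurable (fun x : S2 => (x : E3) i) := by
  have : Continuous (fun x : S2 => (x : E3) i) := by fun_prop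
  exact this.measurable

lemma coord_sq_le (x : S2) (i : Fin 3) : (x : E3) i ^ 2 ≤ 1 := by
  have := sq_le_normSq (x : E3) i
  rwa [norm_coe, one_pow] at this

lemma fS_coord (x : S2) (i : Fin 3) : ((fS x : S2) : E3) i = (x : E3) i * fac i x := rfl

lemma fS_coord_eq_zero (x : S2) (i : Fin 3) : ((fS x : S2) : E3) i = 0 ↔ (x : E3) i = 0 := by
  rw [fS_coord, mul_eq_zero]
  constructor
  · rintro (h | h)
    · exact h
    · exact absurd h (fac_pos (norm_coe_lt x) i).ne'
  · exact Or.inl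

lemma amgm {a b c : ℝ} (ha : 0 ≤ a) (hb : 0 ≤ b) (hc : 0 ≤ c) (h : a + b + c = 3) :
    (1 / 18) * ((a - b) ^ 2 + (b - c) ^ 2 + (c - a) ^ 2) ≤ 1 - a * b * c := by
  have e : c = 3 - a - b := by linarith
  have h1 : 27 * (1 - a * b * c) = (3 / 2) * ((a - b) ^ 2 + (b - c) ^ 2 + (c - a) ^ 2)
      + 3 * (a * (b - c) ^ 2 + b * (c - a) ^ 2 + c * (a - b) ^ 2) := by
    subst e; ring
  have h2 := mul_nonneg ha (sq_nonneg (b - c))
  have h3 := mul_nonneg hb (sq_nonneg (c - a))
  have h4 := mul_nonneg hc (sq_nonneg (a - b))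
  nlinarith

/-- the factor by which `u₀²u₁²u₂²` changes -/
lemma prod_fac_sq (x : S2) :
    fac 0 x ^ 2 * fac 1 x ^ 2 * fac 2 x ^ 2
      = (1 + (1 / 200) * psi 0 x) * (1 + (1 / 200) * psi 1 x) * (1 + (1 / 200) * psi 2 x) := by
  rw [fac_sq (norm_coe_lt x), fac_sq (norm_coe_lt x), fac_sq (norm_coe_lt x)]

lemma psi_sum (u : E3) : psi 0 u + psi 1 u + psi 2 u = 0 := by
  unfold psi
  have e1 : ((0 : Fin 3) + 1) = 1 := rfl
  have e2 : ((0 : Fin 3) + 2) = 2 := rfl
  have e3 : ((1 : Fin 3) + 1) = 2 := rfl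
  have e4 : ((1 : Fin 3) + 2) = 0 := rfl
  have e5 : ((2 : Fin 3) + 1) = 0 := rfl
  have e6 : ((2 : Fin 3) + 2) = 1 := rfl
  rw [e1, e2, e3, e4, e5, e6]
  ring

lemma centre_or (x : S2)
    (h : (x : E3) 0 ^ 2 * (x : E3) 1 ^ 2 * (x : E3) 2 ^ 2
      * (1 - fac 0 x ^ 2 * fac 1 x ^ 2 * fac 2 x ^ 2) = 0) :
    IsCentre x ∨ ∃ j : Fin 3, (x : E3) j = 0 := by
  rcases mul_eq_zero.1 h with h | h
  · right
    rcases mul_eq_zero.1 h with h | h
    · rcases mul_eq_zero.1 h with h | h
      · exact ⟨0, by simpa using h⟩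
      · exact ⟨1, by simpa using h⟩
    · exact ⟨2, by simpa using h⟩
  · left
    rw [prod_fac_sq] at h
    have h0 := rad_pos (norm_coe_lt x) 0
    have h1 := rad_pos (norm_coe_lt x) 1
    have h2 := rad_pos (norm_coe_lt x) 2
    have hs := psi_sum (x : E3)
    have key := amgm (a := 1 + (1 / 200) * psi 0 x) (b := 1 + (1 / 200) * psi 1 x)
      (c := 1 + (1 / 200) * psi 2 x) (by linarith) (by linarith) (by linarith) (by linarith)
    rw [h] at key
    have q1 := sq_nonneg (psi 0 (x : E3) - psi 1 (x : E3))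
    have q2 := sq_nonneg (psi 1 (x : E3) - psi 2 (x : E3))
    have q3 := sq_nonneg (psi 2 (x : E3) - psi 0 (x : E3))
    have r1 : (psi 0 (x : E3) - psi 1 (x : E3)) ^ 2 = 0 := by nlinarith
    have r2 : (psi 1 (x : E3) - psi 2 (x : E3)) ^ 2 = 0 := by nlinarith
    have e1 : psi 0 (x : E3) - psi 1 (x : E3) = 0 := by simpa using r1
    have e2 : psi 1 (x : E3) - psi 2 (x : E3) = 0 := by simpa using r2
    intro i
    fin_cases i
    · show psi 0 (x : E3) = 0
      linarith
    · show psi 1 (x : E3) = 0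
      linarith
    · show psi 2 (x : E3) = 0
      linarith

lemma ae_first {ρ : Measure S2} [IsProbabilityMeasure ρ] (hf : MeasurePreserving fS ρ ρ) :
    ∀ᵐ x ∂ρ, IsCentre x ∨ ∃ j : Fin 3, (x : E3) j = 0 := by
  have hle (x : S2) : 0 ≤ 1 - fac 0 x ^ 2 * fac 1 x ^ 2 * fac 2 x ^ 2 := by
    rw [prod_fac_sq]
    have h0 := rad_pos (norm_coe_lt x) 0
    have h1 := rad_pos (norm_coe_lt x) 1
    have h2 := rad_pos (norm_coe_lt x) 2
    have hs := psi_sum (x : E3)
    have key := amgm (a := 1 + (1 / 200) * psi 0 x) (b := 1 + (1 / 200) * psi 1 x)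
      (c := 1 + (1 / 200) * psi 2 x) (by linarith) (by linarith) (by linarith) (by linarith)
    refine le_trans (by positivity) key
  have hm := ae_eq_of_le hf
    (fun x : S2 => - ((x : E3) 0 ^ 2 * (x : E3) 1 ^ 2 * (x : E3) 2 ^ 2)) ?_ 1 ?_ ?_
  · filter_upwards [hm] with x hx
    apply centre_or
    simp only [fS_coord] at hx
    linear_combination hx
  · exact (((coord_measurable 0).pow_const 2).mul ((coord_measurable 1).pow_const 2)).mul
      ((coord_measurable 2).pow_const 2) |>.neg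
  · intro x
    rw [abs_neg, abs_of_nonneg (by positivity)]
    have h0 := coord_sq_le x 0
    have h1 := coord_sq_le x 1
    have h2 := coord_sq_le x 2
    exact mul_le_one₀ (mul_le_one₀ h0 (sq_nonneg _) h1) (sq_nonneg _) h2
  · intro x
    simp only [fS_coord]
    have h := mul_nonneg (by positivity : 0 ≤ (x : E3) 0 ^ 2 * (x : E3) 1 ^ 2 * (x : E3) 2 ^ 2)
      (hle x)
    nlinarith

lemma ae_second {ρ : Measure S2} [IsProbabilityMeasure ρ] (hf : MeasurePreserving fS ρ ρ)
    (j : Fin 3) :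
    ∀ᵐ x : S2 ∂ρ, ¬ ((x : E3) j = 0 ∧ (x : E3) (j + 1) ≠ 0 ∧ (x : E3) (j + 2) ≠ 0) := by
  classical
  have hj : j + 1 + 2 = j := by fin_cases j <;> rfl
  have hj' : j + 1 + 1 = j + 2 := by fin_cases j <;> rfl
  -- growth on the arc
  have grow (x : S2) (h0 : (x : E3) j = 0) (h2 : (x : E3) (j + 2) ≠ 0) :
      1 < fac (j + 1) (x : E3) ^ 2 := by
    rw [fac_sq (norm_coe_lt x)]
    unfold psi
    rw [hj, hj', h0]
    have : 0 < (x : E3) (j + 2) ^ 2 := by positivity
    nlinarith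
  let N : Set S2 := {x | (x : E3) j = 0 ∧ (x : E3) (j + 1) ≠ 0 ∧ (x : E3) (j + 2) ≠ 0}
  have hN : MeasurableSet N := by
    have z (i : Fin 3) : MeasurableSet {x : S2 | (x : E3) i = 0} :=
      (coord_measurable i) (measurableSet_singleton (0 : ℝ))
    exact (z j).inter ((z (j + 1)).compl.inter (z (j + 2)).compl)
  have hNf (x : S2) : fS x ∈ N ↔ x ∈ N := by
    show (_ ∧ _ ∧ _) ↔ (_ ∧ _ ∧ _)
    rw [fS_coord_eq_zero, Ne, fS_coord_eq_zero, Ne, fS_coord_eq_zero]
  have hm := ae_eq_of_le hf (N.indicator (fun x : S2 => (x : E3) (j + 1) ^ 2)) ?_ 1 ?_ ?_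
  · filter_upwards [hm] with x hx hxN
    have h1 : x ∈ N := hxN
    have h2 : fS x ∈ N := (hNf x).2 h1
    rw [Set.indicator_of_mem h1, Set.indicator_of_mem h2, fS_coord, mul_pow] at hx
    have h3 := grow x hxN.1 hxN.2.2
    have h4 : 0 < (x : E3) (j + 1) ^ 2 := by
      have := hxN.2.1
      positivity
    nlinarith
  · exact ((coord_measurable (j + 1)).pow_const 2).indicator hN
  · intro x
    by_cases h : x ∈ N
    · rw [Set.indicator_of_mem h, abs_of_nonneg (sq_nonneg _)]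
      exact coord_sq_le x _
    · rw [Set.indicator_of_notMem h]; simp
  · intro x
    by_cases h : x ∈ N
    · rw [Set.indicator_of_mem h, Set.indicator_of_mem ((hNf x).2 h), fS_coord, mul_pow]
      have h3 := grow x h.1 h.2.2
      nlinarith [sq_nonneg ((x : E3) (j + 1))]
    · rw [Set.indicator_of_notMem h, Set.indicator_of_notMem (fun h' => h ((hNf x).1 h'))]

/-- almost every point is a vertex or a centre -/
lemma ae_special {ρ : Measure S2} [IsProbabilityMeasure ρ] (hf : MeasurePreserving fS ρ ρ) :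
    ∀ᵐ x ∂ρ, IsVertex x ∨ IsCentre x := by
  filter_upwards [ae_first hf, ae_second hf 0, ae_second hf 1, ae_second hf 2] with x h h0 h1 h2
  rcases h with h | ⟨j, hj⟩
  · exact Or.inr h
  · left
    have e01 : ((0 : Fin 3) + 1) = 1 := rfl
    have e02 : ((0 : Fin 3) + 2) = 2 := rfl
    have e11 : ((1 : Fin 3) + 1) = 2 := rfl
    have e12 : ((1 : Fin 3) + 2) = 0 := rfl
    have e21 : ((2 : Fin 3) + 1) = 0 := rfl
    have e22 : ((2 : Fin 3) + 2) = 1 := rfl
    rw [e01, e02] at h0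
    rw [e11, e12] at h1
    rw [e21, e22] at h2
    have key : ((x : E3) 1 = 0 ∧ (x : E3) 2 = 0) ∨ ((x : E3) 2 = 0 ∧ (x : E3) 0 = 0) ∨
        ((x : E3) 0 = 0 ∧ (x : E3) 1 = 0) := by
      fin_cases j
      · have hj : (x : E3) 0 = 0 := hj
        tauto
      · have hj : (x : E3) 1 = 0 := hj
        tauto
      · have hj : (x : E3) 2 = 0 := hj
        tauto
    rcases key with h | h | h
    · exact ⟨0, h.1, h.2⟩
    · exact ⟨1, h.1, h.2⟩
    · exact ⟨2, h.1, h.2⟩

lemma fac_centre {x : S2} (h : IsCentre x) (i : Fin 3) : fac i (x : E3) = 1 := by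
  unfold fac
  rw [h i]
  simp

lemma fix_centre {x : S2} (h : IsCentre x) : fS x = x := by
  apply Subtype.ext
  ext i
  rw [fS_coord, fac_centre h, mul_one]

lemma fix_vertex {x : S2} (h : IsVertex x) : fS x = x := by
  obtain ⟨j, h1, h2⟩ := h
  have hj : ∀ i : Fin 3, i = j ∨ i = j + 1 ∨ i = j + 2 := by
    intro i
    fin_cases j <;> fin_cases i <;> simp
  apply Subtype.ext
  ext i
  rw [fS_coord]
  rcases hj i with rfl | rfl | rfl
  · have : fac i (x : E3) = 1 := by
      unfold fac psi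
      rw [h1, h2]; simp
    rw [this, mul_one]
  · rw [h1, zero_mul]
  · rw [h2, zero_mul]

lemma ae_fixed {ρ : Measure S2} [IsProbabilityMeasure ρ] (hf : MeasurePreserving fS ρ ρ) :
    ∀ᵐ x ∂ρ, fS x = x := by
  filter_upwards [ae_special hf] with x hx
  rcases hx with h | h
  · exact fix_vertex h
  · exact fix_centre h

end Pool.Agent.Helper485_RE
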