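import Mathlib
import Pool.Agent.Helper485_RE.Inv
import Pool.Agent.Helper485_RE.Defs

/-!
The exponents at the vertices and the centres.
-/

set_option autoImplicit false

namespace Pool.Agent.Helper485_RE

open scoped Topology Manifold ContDiff
open Filter

/-! ### The derivative of the ambient map -/

lemma fderiv_F_apply {p : E3} (hp : ‖p‖ < 2) (w : E3) (i : Fin 3) :
    (fderiv ℝ F p w) i = w i * fac i p + p i *
      ((1 / 200) * (2 * p (i + 1) * w (i + 1) - 2 * p (i + 2) * w (i + 2)) / (2 * fac i p)) := by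
  have h1 : HasFDerivAt F (fderiv ℝ F p) p :=
    ((F_contDiffAt (n := 1) hp).differentiableAt (by norm_num)).hasFDerivAt
  have h2 : HasDerivAt (fun t : ℝ => p + t • w) w 0 := by
    have := ((hasDerivAt_id (0 : ℝ)).smul_const w).const_add p
    simpa using this
  have h3 : HasDerivAt (fun t : ℝ => F (p + t • w)) (fderiv ℝ F p w) 0 := by
    have h1' : HasFDerivAt F (fderiv ℝ F p) (p + (0 : ℝ) • w) := by simpa using h1
    exact h1'.comp_hasDerivAt (0 : ℝ) h2
  have h4 : HasDerivAt (fun t : ℝ => F (p + t • w) i) ((fderiv ℝ F p w) i) 0 := by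
    have := (EuclideanSpace.proj i : E3 →L[ℝ] ℝ).hasFDerivAt.comp_hasDerivAt
      (0 : ℝ) h3
    exact this
  have hc (j : Fin 3) : HasDerivAt (fun t : ℝ => (p + t • w) j) (w j) 0 := by
    have := (EuclideanSpace.proj j : E3 →L[ℝ] ℝ).hasFDerivAt.comp_hasDerivAt
      (0 : ℝ) h2
    exact this
  have hψ : HasDerivAt (fun t : ℝ => psi i (p + t • w))
      (2 * p (i + 1) * w (i + 1) - 2 * p (i + 2) * w (i + 2)) 0 := by
    have := ((hc (i + 1)).fun_pow 2).fun_sub ((hc (i + 2)).fun_pow 2)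
    exact this.congr_deriv (by simp)
  have hr : HasDerivAt (fun t : ℝ => 1 + (1 / 200) * psi i (p + t • w))
      ((1 / 200) * (2 * p (i + 1) * w (i + 1) - 2 * p (i + 2) * w (i + 2))) 0 :=
    (hψ.const_mul (1 / 200 : ℝ)).const_add 1
  have hf : HasDerivAt (fun t : ℝ => fac i (p + t • w))
      ((1 / 200) * (2 * p (i + 1) * w (i + 1) - 2 * p (i + 2) * w (i + 2)) / (2 * fac i p)) 0 := by
    have hne : 1 + (1 / 200) * psi i (p + (0 : ℝ) • w) ≠ 0 := by
      have := rad_pos hp i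
      simp only [zero_smul, add_zero]
      linarith
    exact (hr.sqrt hne).congr_deriv (by simp only [fac, zero_smul, add_zero])
  have h5 := (hc i).mul hf
  have h6 := h4.unique h5
  rw [h6]
  simp

/-! ### The action on tangent vectors at the special points -/

lemma centre_sq {x : S2} (h : IsCentre x) (i : Fin 3) : (x : E3) i ^ 2 = 1 / 3 := by
  have h0 := h 0
  have h1 := h 1
  have hn : (x : E3) 0 ^ 2 + (x : E3) 1 ^ 2 + (x : E3) 2 ^ 2 = 1 := by
    have := EuclideanSpace.real_norm_sq_eq (x : E3)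
    rw [norm_coe, Fin.sum_univ_three] at this
    linarith
  unfold psi at h0 h1
  have e1 : ((0 : Fin 3) + 1) = 1 := rfl
  have e2 : ((0 : Fin 3) + 2) = 2 := rfl
  have e3 : ((1 : Fin 3) + 1) = 2 := rfl
  have e4 : ((1 : Fin 3) + 2) = 0 := rfl
  rw [e1, e2] at h0
  rw [e3, e4] at h1
  fin_cases i
  · show (x : E3) 0 ^ 2 = 1 / 3
    linarith
  · show (x : E3) 1 ^ 2 = 1 / 3
    linarith
  · show (x : E3) 2 ^ 2 = 1 / 3
    linarith

/-- the expansion factor at the centres -/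
noncomputable def kap : ℝ := Real.sqrt (1 + (1 / 200) ^ 2 / 3)

lemma kap_sq : kap ^ 2 = 1 + (1 / 200) ^ 2 / 3 := Real.sq_sqrt (by norm_num)

lemma kap_pos : 0 < kap := Real.sqrt_pos.2 (by norm_num)

lemma one_lt_kap : 1 < kap := by
  have h1 := kap_sq
  have h2 := kap_pos
  nlinarith

/-- the orthogonality relation -/
def Orth (x : S2) (w : E3) : Prop :=
  (x : E3) 0 * w 0 + (x : E3) 1 * w 1 + (x : E3) 2 * w 2 = 0

lemma centre_deriv {x : S2} (h : IsCentre x) {w : E3} (hw : Orth x w) :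
    Orth x (fderiv ℝ F (x : E3) w) ∧ ‖fderiv ℝ F (x : E3) w‖ ^ 2 = kap ^ 2 * ‖w‖ ^ 2 := by
  have s0 := centre_sq h 0
  have s1 := centre_sq h 1
  have s2 := centre_sq h 2
  have d (i : Fin 3) := fderiv_F_apply (norm_coe_lt x) w i
  simp only [fac_centre h, mul_one] at d
  have d0 := d 0
  have d1 := d 1
  have d2 := d 2
  have e01 : ((0 : Fin 3) + 1) = 1 := rfl
  have e02 : ((0 : Fin 3) + 2) = 2 := rfl
  have e11 : ((1 : Fin 3) + 1) = 2 := rfl
  have e12 : ((1 : Fin 3) + 2) = 0 := rfl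
  have e21 : ((2 : Fin 3) + 1) = 0 := rfl
  have e22 : ((2 : Fin 3) + 2) = 1 := rfl
  rw [e01, e02] at d0
  rw [e11, e12] at d1
  rw [e21, e22] at d2
  unfold Orth at hw ⊢
  rw [EuclideanSpace.real_norm_sq_eq, EuclideanSpace.real_norm_sq_eq, Fin.sum_univ_three,
    Fin.sum_univ_three, d0, d1, d2, kap_sq]
  generalize (x : E3) 0 = p0 at *
  generalize (x : E3) 1 = p1 at *
  generalize (x : E3) 2 = p2 at *
  generalize w 0 = w0 at *
  generalize w 1 = w1 at *
  generalize w 2 = w2 at *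
  constructor
  · linear_combination hw + (1 / 200) * (p1 * w1 - p2 * w2) * s0
      + (1 / 200) * (p2 * w2 - p0 * w0) * s1 + (1 / 200) * (p0 * w0 - p1 * w1) * s2
  · have q0 : (w0 + p0 * (1 / 200 * (2 * p1 * w1 - 2 * p2 * w2) / 2)) ^ 2
        = w0 ^ 2 + 2 * (1 / 200) * (p0 * w0) * (p1 * w1 - p2 * w2)
          + (1 / 200) ^ 2 * p0 ^ 2 * (p1 * w1 - p2 * w2) ^ 2 := by ring
    have q1 : (w1 + p1 * (1 / 200 * (2 * p2 * w2 - 2 * p0 * w0) / 2)) ^ 2
        = w1 ^ 2 + 2 * (1 / 200) * (p1 * w1) * (p2 * w2 - p0 * w0)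
          + (1 / 200) ^ 2 * p1 ^ 2 * (p2 * w2 - p0 * w0) ^ 2 := by ring
    have q2 : (w2 + p2 * (1 / 200 * (2 * p0 * w0 - 2 * p1 * w1) / 2)) ^ 2
        = w2 ^ 2 + 2 * (1 / 200) * (p2 * w2) * (p0 * w0 - p1 * w1)
          + (1 / 200) ^ 2 * p2 ^ 2 * (p0 * w0 - p1 * w1) ^ 2 := by ring
    rw [q0, q1, q2, s0, s1, s2]
    have r : (p1 * w1 - p2 * w2) ^ 2 + (p2 * w2 - p0 * w0) ^ 2 + (p0 * w0 - p1 * w1) ^ 2
        = w0 ^ 2 + w1 ^ 2 + w2 ^ 2 := by
      linear_combination (- (p0 * w0 + p1 * w1 + p2 * w2)) * hw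
        + 3 * w0 ^ 2 * s0 + 3 * w1 ^ 2 * s1 + 3 * w2 ^ 2 * s2
    linear_combination ((1 / 200) ^ 2 / 3) * r

/-- the expansion factor at the vertices -/
noncomputable def lam : ℝ := Real.sqrt (1 + 1 / 200)

lemma lam_pos : 0 < lam := Real.sqrt_pos.2 (by norm_num)

lemma kap_le_lam : kap ≤ lam := Real.sqrt_le_sqrt (by norm_num)

lemma vertex_deriv {x : S2} {j : Fin 3} (h1 : (x : E3) (j + 1) = 0) (h2 : (x : E3) (j + 2) = 0)
    {w : E3} (hw0 : w j = 0) (hw1 : w (j + 1) = 0) :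
    fderiv ℝ F (x : E3) w = lam • w := by
  have hn : (x : E3) j ^ 2 = 1 := by
    have := EuclideanSpace.real_norm_sq_eq (x : E3)
    rw [norm_coe, Fin.sum_univ_three] at this
    fin_cases j
    · have a1 : (x : E3) 1 = 0 := h1
      have a2 : (x : E3) 2 = 0 := h2
      show (x : E3) 0 ^ 2 = 1
      rw [a1, a2] at this
      linarith
    · have a1 : (x : E3) 2 = 0 := h1
      have a2 : (x : E3) 0 = 0 := h2
      show (x : E3) 1 ^ 2 = 1
      rw [a1, a2] at this
      linarith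
    · have a1 : (x : E3) 0 = 0 := h1
      have a2 : (x : E3) 1 = 0 := h2
      show (x : E3) 2 ^ 2 = 1
      rw [a1, a2] at this
      linarith
  have hj : ∀ i : Fin 3, i = j ∨ i = j + 1 ∨ i = j + 2 := by
    intro i
    fin_cases j <;> fin_cases i <;> simp
  have t1 : j + 1 + 1 = j + 2 := by fin_cases j <;> rfl
  have t2 : j + 1 + 2 = j := by fin_cases j <;> rfl
  have t3 : j + 2 + 1 = j := by fin_cases j <;> rfl
  have t4 : j + 2 + 2 = j + 1 := by fin_cases j <;> rfl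
  ext i
  rw [fderiv_F_apply (norm_coe_lt x)]
  rcases hj i with rfl | rfl | rfl
  · simp [hw0, h1, h2]
  · simp [hw1, h1]
  · have hf : fac (j + 2) (x : E3) = lam := by
      unfold fac psi lam
      rw [t3, t4, h1, hn]
      norm_num
    simp [h2, hf, mul_comm]

/-! ### The derivative of the iterates -/

/-- the derivative of the inclusion of the sphere -/
noncomputable def L (y : S2) : TangentSpace (𝓡 2) y →L[ℝ] E3 :=
  mvfderiv (𝓡 2) (Subtype.val : S2 → E3) y

lemma L_bound (g : Bundle.RiemannianMetric (fun x : S2 => TangentSpace (𝓡 2) x)) (y : S2) :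
    ∃ C : ℝ, 0 < C ∧ ∀ w : TangentSpace (𝓡 2) y, ‖L y w‖ ≤ C * Real.sqrt (g.inner y w w) := by
  have hb := (g.isVonNBounded y).image (L y)
  rw [NormedSpace.isVonNBounded_iff, isBounded_iff_forall_norm_le] at hb
  obtain ⟨C, hC⟩ := hb
  refine ⟨2 * (|C| + 1), by positivity, fun w => ?_⟩
  rcases eq_or_ne w 0 with rfl | hw
  · simp only [map_zero, norm_zero]
    positivity
  · have hp := g.pos y w hw
    set s := Real.sqrt (g.inner y w w) with hs
    have hs0 : 0 < s := Real.sqrt_pos.2 hp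
    have hss : s ^ 2 = g.inner y w w := Real.sq_sqrt hp.le
    have h1 : g.inner y ((2 * s)⁻¹ • w) ((2 * s)⁻¹ • w) < 1 := by
      rw [map_smul, map_smul, smul_eq_mul]
      have e2 : ((2 * s)⁻¹ • g.inner y w) w = (2 * s)⁻¹ * g.inner y w w := rfl
      rw [e2, ← hss]
      have : (2 * s)⁻¹ * ((2 * s)⁻¹ * s ^ 2) = 1 / 4 := by
        field_simp
        norm_num
      rw [this]
      norm_num
    have h2 := hC _ (Set.mem_image_of_mem _ h1)
    rw [map_smul, norm_smul, norm_inv, Real.norm_of_nonneg (by positivity : 0 ≤ 2 * s)] at h2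
    have h3 : ‖L y w‖ ≤ 2 * s * C := by
      rw [inv_mul_le_iff₀ (by positivity)] at h2
      exact h2
    calc ‖L y w‖ ≤ 2 * s * C := h3
      _ ≤ 2 * s * (|C| + 1) := by
          gcongr
          linarith [le_abs_self C]
      _ = 2 * (|C| + 1) * s := by ring

/-- the derivative of the `n`-th iterate, as a map into the ambient space -/
noncomputable def D (n : ℕ) (p : S2) : TangentSpace (𝓡 2) p →L[ℝ] E3 :=
  mvfderiv (𝓡 2) (fun x : S2 => ((fS^[n] x : S2) : E3)) p

lemma mdiff_iter (n : ℕ) (p : S2) : MDifferentiableAt (𝓡 2) (𝓡 2) (fS^[n]) p := by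
  have h : ContMDiff (𝓡 2) (𝓡 2) ω fS := fS.contMDiff_toFun
  have h2 := ContMDiff.iterate h n
  exact (h2 p).mdifferentiableAt (by simp)

lemma mdiff_coe (y : S2) : MDifferentiableAt (𝓡 2) 𝓘(ℝ, E3) (Subtype.val : S2 → E3) y :=
  (contMDiff_coe_sphere (m := 1) y).mdifferentiableAt one_ne_zero

lemma mdiff_iter_coe (n : ℕ) (p : S2) :
    MDifferentiableAt (𝓡 2) 𝓘(ℝ, E3) (fun x : S2 => ((fS^[n] x : S2) : E3)) p :=
  (mdiff_coe _).comp p (mdiff_iter n p)

lemma D_eq (n : ℕ) (p : S2) (v : TangentSpace (𝓡 2) p) :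
    D n p v = L (fS^[n] p) (mfderiv (𝓡 2) (𝓡 2) fS^[n] p v) := by
  exact mfderiv_comp_apply p (mdiff_coe _) (mdiff_iter n p) v

lemma D_zero (p : S2) (v : TangentSpace (𝓡 2) p) : D 0 p v = L p v := rfl

lemma D_succ (n : ℕ) (p : S2) (v : TangentSpace (𝓡 2) p) :
    D (n + 1) p v = fderiv ℝ F ((fS^[n] p : S2) : E3) (D n p v) := by
  have e : (fun x : S2 => ((fS^[n + 1] x : S2) : E3)) = F ∘ (fun x : S2 => ((fS^[n] x : S2) : E3)) := by
    funext x
    rw [Function.iterate_succ_apply']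
    rfl
  have hF : MDifferentiableAt 𝓘(ℝ, E3) 𝓘(ℝ, E3) F ((fS^[n] p : S2) : E3) :=
    ((F_contDiffAt (n := 1) (norm_coe_lt _)).differentiableAt (by norm_num)).mdifferentiableAt
  have h := mfderiv_comp_apply p hF (mdiff_iter_coe n p) v
  rw [← e, mfderiv_eq_fderiv] at h
  exact h

/-! ### The lower bound for `χ₊` -/

lemma tendsto_rate (c κ : ℝ) (hc : 0 < c) (hκ : 0 < κ) :
    Tendsto (fun n : ℕ => ENNReal.ofReal (Real.log (c * κ ^ n)) / (n : ENNReal)) atTop
      (𝓝 (ENNReal.ofReal (Real.log κ))) := by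
  have h1 : Tendsto (fun n : ℕ => Real.log c / (n : ℝ) + Real.log κ) atTop (𝓝 (Real.log κ)) := by
    have := (tendsto_const_div_atTop_nhds_zero_nat (Real.log c)).add_const (Real.log κ)
    simpa using this
  have h2 := ENNReal.tendsto_ofReal h1
  refine h2.congr' ?_
  filter_upwards [eventually_gt_atTop 0] with n hn
  have hn' : (0 : ℝ) < n := by exact_mod_cast hn
  have e : Real.log c / (n : ℝ) + Real.log κ = Real.log (c * κ ^ n) / (n : ℝ) := by
    rw [Real.log_mul hc.ne' (pow_pos hκ n).ne', Real.log_pow]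
    field_simp
  rw [e, ENNReal.ofReal_div_of_pos hn', ENNReal.ofReal_natCast]

lemma chiPlus_ge (g : Bundle.RiemannianMetric (fun x : S2 => TangentSpace (𝓡 2) x)) (p : S2)
    (c κ : ℝ) (hc : 0 < c) (hκ : 0 < κ)
    (h : ∀ n : ℕ, ENNReal.ofReal (c * κ ^ n) ≤
      extNorm (fun v w => g.inner p v w) (fun v w => g.inner (fS^[n] p) v w)
      (mfderiv (𝓡 2) (𝓡 2) fS^[n] p)) :
    ENNReal.ofReal (Real.log κ) ≤ chiPlus (𝓡 2) g fS p := by
  rw [← (tendsto_rate c κ hc hκ).liminf_eq]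
  unfold chiPlus
  refine liminf_le_liminf (Eventually.of_forall (fun n => ?_))
  apply ENNReal.div_le_div_right
  have h1 := ENNReal.log_monotone (h n)
  rw [ENNReal.log_ofReal_of_pos (mul_pos hc (pow_pos hκ n))] at h1
  have h2 := EReal.toENNReal_le_toENNReal h1
  rwa [EReal.toENNReal_of_ne_top (EReal.coe_ne_top _), EReal.toReal_coe] at h2

lemma extNorm_ge {V W : Type*} (bV : V → V → ℝ) (bW : W → W → ℝ) (A : V → W) (v : V)
    (hv : bV v v ≤ 1) (r : ℝ) (hr : r ≤ Real.sqrt (bW (A v) (A v))) :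
    ENNReal.ofReal r ≤ extNorm bV bW A := by
  refine le_trans (ENNReal.ofReal_le_ofReal hr) ?_
  unfold extNorm
  refine le_iSup_of_le 1 (le_iSup_of_le (fun _ : Fin 1 => v) (le_iSup_of_le (fun _ => hv) ?_))
  rw [Matrix.det_fin_one]
  rfl

lemma iter_fix {p : S2} (hp : fS p = p) (n : ℕ) : fS^[n] p = p :=
  Function.iterate_fixed hp n

lemma L_bound' (g : Bundle.RiemannianMetric (fun x : S2 => TangentSpace (𝓡 2) x)) (p : S2) :
    ∃ C : ℝ, 0 < C ∧ ∀ y : S2, y = p → ∀ w : TangentSpace (𝓡 2) y,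
      ‖L y w‖ ≤ C * Real.sqrt (g.inner y w w) := by
  obtain ⟨C, hC, h⟩ := L_bound g p
  refine ⟨C, hC, ?_⟩
  rintro y rfl w
  exact h w

lemma chiPlus_of_growth (g : Bundle.RiemannianMetric (fun x : S2 => TangentSpace (𝓡 2) x))
    {p : S2} (hp : fS p = p) (κ : ℝ) (hκ : 0 < κ) (v : TangentSpace (𝓡 2) p)
    (hv : 0 < ‖L p v‖) (h : ∀ n : ℕ, κ ^ n * ‖L p v‖ ≤ ‖D n p v‖) :
    ENNReal.ofReal (Real.log κ) ≤ chiPlus (𝓡 2) g fS p := by
  obtain ⟨C, hC, hL⟩ := L_bound' g p
  have hv0 : v ≠ 0 := by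
    rintro rfl
    simp at hv
  have hg := g.pos p v hv0
  set s := Real.sqrt (g.inner p v v) with hs
  have hs0 : 0 < s := Real.sqrt_pos.2 hg
  have hss : s ^ 2 = g.inner p v v := Real.sq_sqrt hg.le
  apply chiPlus_ge g p (‖L p v‖ / (s * C)) κ (by positivity) hκ
  intro n
  apply extNorm_ge _ _ _ (s⁻¹ • v)
  · have e2 : g.inner p (s⁻¹ • v) (s⁻¹ • v) = s⁻¹ * (s⁻¹ * g.inner p v v) := by
      rw [map_smul, map_smul, smul_eq_mul]
      rfl
    show g.inner p (s⁻¹ • v) (s⁻¹ • v) ≤ 1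
    rw [e2, ← hss]
    apply le_of_eq
    field_simp
  · have h1 := hL _ (iter_fix hp n) (mfderiv (𝓡 2) (𝓡 2) fS^[n] p (s⁻¹ • v))
    rw [← D_eq, map_smul, norm_smul, norm_inv, Real.norm_of_nonneg hs0.le] at h1
    have h2 : s⁻¹ * (κ ^ n * ‖L p v‖) ≤ C * Real.sqrt (g.inner (fS^[n] p)
        (mfderiv (𝓡 2) (𝓡 2) fS^[n] p (s⁻¹ • v)) (mfderiv (𝓡 2) (𝓡 2) fS^[n] p (s⁻¹ • v))) := by
      refine le_trans ?_ h1
      gcongr
      exact h n
    have e : ‖L p v‖ / (s * C) * κ ^ n = (s⁻¹ * (κ ^ n * ‖L p v‖)) / C := by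
      field_simp
    rw [e, div_le_iff₀' hC]
    exact h2

/-! ### The special points -/

lemma exists_L {p : S2} {w : E3} (hw : Orth p w) : ∃ v : TangentSpace (𝓡 2) p, L p v = w := by
  have h : w ∈ (Submodule.span ℝ {(p : E3)})ᗮ := by
    rw [Submodule.mem_orthogonal_singleton_iff_inner_right]
    rw [PiLp.inner_apply, Fin.sum_univ_three]
    simp only [RCLike.inner_apply, conj_trivial]
    unfold Orth at hw
    linarith
  rw [← range_mvfderiv_subtypeVal (n := 2) p] at h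
  exact h

lemma chiPlus_centre (g : Bundle.RiemannianMetric (fun x : S2 => TangentSpace (𝓡 2) x))
    {p : S2} (hp : IsCentre p) :
    ENNReal.ofReal (Real.log kap) ≤ chiPlus (𝓡 2) g fS p := by
  let w : E3 := WithLp.toLp 2 ![(p : E3) 1, - (p : E3) 0, 0]
  have hw : Orth p w := by
    unfold Orth
    have e0 : w 0 = (p : E3) 1 := rfl
    have e1 : w 1 = - (p : E3) 0 := rfl
    have e2 : w 2 = 0 := rfl
    rw [e0, e1, e2]
    ring
  have hw0 : w ≠ 0 := by
    intro h
    have e1 : w 1 = - (p : E3) 0 := rfl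
    rw [h] at e1
    have h0 : (p : E3) 0 = 0 := by
      have : (0 : ℝ) = - (p : E3) 0 := e1
      linarith
    have := centre_sq hp 0
    rw [h0] at this
    norm_num at this
  obtain ⟨v, hv⟩ := exists_L hw
  have key (n : ℕ) : Orth p (D n p v) ∧ ‖D n p v‖ = kap ^ n * ‖L p v‖ := by
    induction n with
    | zero =>
      rw [D_zero, hv]
      exact ⟨hw, by simp⟩
    | succ n ih =>
      rw [D_succ, iter_fix (fix_centre hp)]
      obtain ⟨h1, h2⟩ := centre_deriv hp ih.1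
      refine ⟨h1, ?_⟩
      have h3 : ‖fderiv ℝ F (p : E3) (D n p v)‖ ^ 2 = (kap * ‖D n p v‖) ^ 2 := by
        rw [h2, mul_pow]
      have h4 := (sq_eq_sq₀ (norm_nonneg _)
        (mul_nonneg kap_pos.le (norm_nonneg _))).1 h3
      rw [h4, ih.2, pow_succ]
      ring
  apply chiPlus_of_growth g (fix_centre hp) kap kap_pos v
  · rw [hv]
    exact norm_pos_iff.2 hw0
  · intro n
    exact (key n).2.ge

lemma chiPlus_vertex (g : Bundle.RiemannianMetric (fun x : S2 => TangentSpace (𝓡 2) x))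
    {p : S2} (hp : IsVertex p) :
    ENNReal.ofReal (Real.log lam) ≤ chiPlus (𝓡 2) g fS p := by
  have hfix := fix_vertex hp
  obtain ⟨j, h1, h2⟩ := hp
  let w : E3 := EuclideanSpace.single (j + 2) (1 : ℝ)
  have hw0 : w j = 0 := by
    have : j ≠ j + 2 := by fin_cases j <;> decide
    simp [w, this]
  have hw1 : w (j + 1) = 0 := by
    have : j + 1 ≠ j + 2 := by fin_cases j <;> decide
    simp [w, this]
  have hw2 : w (j + 2) = 1 := by simp [w]
  have hw : Orth p w := by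
    unfold Orth
    fin_cases j
    · have a1 : (p : E3) 1 = 0 := h1
      have a2 : (p : E3) 2 = 0 := h2
      have a0 : w 0 = 0 := hw0
      rw [a1, a2, a0]; ring
    · have a1 : (p : E3) 2 = 0 := h1
      have a2 : (p : E3) 0 = 0 := h2
      have a0 : w 1 = 0 := hw0
      rw [a1, a2, a0]; ring
    · have a1 : (p : E3) 0 = 0 := h1
      have a2 : (p : E3) 1 = 0 := h2
      have a0 : w 2 = 0 := hw0
      rw [a1, a2, a0]; ring
  have hwne : w ≠ 0 := by
    intro h
    rw [h] at hw2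
    have : (0 : ℝ) = 1 := hw2
    norm_num at this
  obtain ⟨v, hv⟩ := exists_L hw
  have key (n : ℕ) : D n p v = lam ^ n • w := by
    induction n with
    | zero => rw [D_zero, hv]; simp
    | succ n ih =>
      rw [D_succ, iter_fix hfix, ih, map_smul, vertex_deriv h1 h2 hw0 hw1, smul_smul, pow_succ]
  apply chiPlus_of_growth g hfix lam lam_pos v
  · rw [hv]
    exact norm_pos_iff.2 hwne
  · intro n
    rw [key, hv, norm_smul, norm_pow, Real.norm_of_nonneg lam_pos.le]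

lemma chiPlus_special (g : Bundle.RiemannianMetric (fun x : S2 => TangentSpace (𝓡 2) x))
    {p : S2} (hp : IsVertex p ∨ IsCentre p) :
    ENNReal.ofReal (Real.log kap) ≤ chiPlus (𝓡 2) g fS p := by
  rcases hp with hp | hp
  · refine le_trans (ENNReal.ofReal_le_ofReal ?_) (chiPlus_vertex g hp)
    exact Real.log_le_log kap_pos kap_le_lam
  · exact chiPlus_centre g hp

end Pool.Agent.Helper485_RE
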